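import Pool.Agent.K1H11.NS2.WaveP

/-!
# Almost orthogonality of waves of well separated frequencies
-/

open MeasureTheory Set Filter Topology
open scoped ENNReal NNReal ContDiff

namespace Pool.Agent.K1H29.L2

open Pool.Agent.K1H11.NS
open H459R3.NS (ee fc fr cube S SP Per pd D Rap)

/-- the Fourier coefficients of a smooth function are small away from a box -/
lemma decay {f : E3 → ℝ} (hf : SP f) {ε : ℝ} (hε : 0 < ε) :
    ∃ L : ℕ, 1 ≤ L ∧ ∀ k : K, (∃ m, (L : ℤ) ≤ |k m|) → ‖fr f k‖ ≤ ε := by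
  have hs : Summable (fr f) := (H459R3.NS.rap_fr hf).summable
  have ht := hs.tendsto_cofinite_zero
  have hfin : {k : K | ¬ ‖fr f k‖ ≤ ε}.Finite := by
    have h1 : ∀ᶠ k in cofinite, ‖fr f k‖ ≤ ε := by
      have h2 := ht.norm
      rw [norm_zero] at h2
      exact (h2.eventually (gt_mem_nhds hε)).mono fun k hk => le_of_lt hk
    exact h1
  obtain ⟨B, hB⟩ := (hfin.image fun k : K => H459R3.NS.N k).bddAbove
  refine ⟨B + 1, by omega, fun k ⟨m, hm⟩ => ?_⟩
  by_contra hcon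
  have h3 : H459R3.NS.N k ≤ B := hB ⟨k, hcon, rfl⟩
  have h4 : (k m).natAbs ≤ H459R3.NS.N k :=
    Finset.le_sup (f := fun j => (k j).natAbs) (Finset.mem_univ m)
  have h5 : (B : ℤ) + 1 ≤ (k m).natAbs := by
    rw [Int.natCast_natAbs]; push_cast at hm; exact hm
  omega

/-- an oscillatory integral -/
lemma int_cos {f : E3 → ℝ} (hf : SP f) (k : K) (θ : ℝ) :
    |∫ x in cube, f x * Real.cos (2 * Real.pi * (∑ i, (k i : ℝ) * x i) + θ)| ≤ ‖fr f k‖ := by
  have e1 : ∀ x : E3, f x * Real.cos (2 * Real.pi * (∑ i, (k i : ℝ) * x i) + θ) =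
      (Complex.exp (-(θ : ℂ) * Complex.I) * (ee (-k) x * (f x : ℂ))).re := by
    intro x
    have e2 : Complex.exp (-(θ : ℂ) * Complex.I) * (ee (-k) x * (f x : ℂ)) =
        ((f x : ℝ) : ℂ) * Complex.exp (((-(2 * Real.pi * (∑ i, (k i : ℝ) * x i) + θ) : ℝ) : ℂ) * Complex.I) := by
      unfold ee H459R3.NS.ph
      rw [← mul_assoc, ← Complex.exp_add, mul_comm]
      congr 2
      push_cast
      simp only [Pi.neg_apply]
      push_cast
      simp only [neg_mul, Finset.sum_neg_distrib]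
      ring
    rw [e2, Complex.re_ofReal_mul, Complex.exp_ofReal_mul_I_re, Real.cos_neg]
  have hi : IntegrableOn (fun x : E3 => ee (-k) x * (f x : ℂ)) cube :=
    H459R3.NS.integrableOn_cube ((H459R3.NS.ee_continuous _).mul
      (Complex.continuous_ofReal.comp hf.smooth.continuous))
  have e3 : ∫ x in cube, f x * Real.cos (2 * Real.pi * (∑ i, (k i : ℝ) * x i) + θ) =
      (Complex.exp (-(θ : ℂ) * Complex.I) * fr f k).re := by
    simp_rw [e1]
    have h1 := integral_re (𝕜 := ℂ) (hi.const_mul (Complex.exp (-(θ : ℂ) * Complex.I)))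
    simp only [RCLike.re_to_complex] at h1
    rw [h1, integral_const_mul]
    rfl
  rw [e3]
  refine (Complex.abs_re_le_norm _).trans ?_
  rw [norm_mul]
  have e4 : ‖Complex.exp (-(θ : ℂ) * Complex.I)‖ = 1 := by
    have := Complex.norm_exp_ofReal_mul_I (-θ)
    push_cast at this
    exact this
  rw [e4, one_mul]

/-- the wave `cos (2 π N x_c + θ)` -/
noncomputable def co (c : Fin 3) (N : ℕ) (θ : ℝ) (x : E3) : ℝ := Real.cos (2 * Real.pi * N * x c + θ)

lemma co_SP (c : Fin 3) (N : ℕ) (θ : ℝ) : SP (co c N θ) where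
  smooth := by
    unfold co
    exact Real.contDiff_cos.comp ((contDiff_const.mul (contDiff_apply ℝ ℝ c)).add contDiff_const)
  per := fun i x => by
    unfold co
    by_cases hi : c = i
    · subst hi
      simp only [Pi.add_apply, Pi.single_eq_same]
      rw [show 2 * Real.pi * N * (x c + 1) + θ = 2 * Real.pi * N * x c + θ + N * (2 * Real.pi) by ring,
        Real.cos_add_nat_mul_two_pi]
    · simp [Pi.single_eq_of_ne hi]

lemma sn_eq_co (c : Fin 3) (N : ℕ) (x : E3) : sn c N x = co c N (-(Real.pi / 2)) x := by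
  unfold sn co
  rw [← sub_eq_add_neg, Real.cos_sub_pi_div_two]

lemma co_sq (c : Fin 3) (N : ℕ) (θ : ℝ) (x : E3) :
    co c N θ x ^ 2 = 1 / 2 + Real.cos (2 * Real.pi * (∑ i, ((nn c (2 * N : ℤ)) i : ℝ) * x i) + 2 * θ) / 2 := by
  have e1 : ∑ i, ((nn c (2 * N : ℤ)) i : ℝ) * x i = 2 * N * x c := by
    rw [Finset.sum_eq_single c]
    · simp [nn]
    · intro b _ hb
      simp [nn, Pi.single_eq_of_ne hb]
    · simp
  unfold co
  rw [e1, Real.cos_sq, show 2 * Real.pi * (2 * N * x c) + 2 * θ = 2 * (2 * Real.pi * N * x c + θ) by ring]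

lemma co_mul (c c' : Fin 3) (N N' : ℕ) (θ θ' : ℝ) (x : E3) :
    co c N θ x * co c' N' θ' x =
      Real.cos (2 * Real.pi * (∑ i, ((nn c' (N' : ℤ) - nn c (N : ℤ)) i : ℝ) * x i) + (θ' - θ)) / 2 +
      Real.cos (2 * Real.pi * (∑ i, ((nn c' (N' : ℤ) + nn c (N : ℤ)) i : ℝ) * x i) + (θ' + θ)) / 2 := by
  have e1 : ∀ (c : Fin 3) (N : ℕ), ∑ i, ((nn c (N : ℤ)) i : ℝ) * x i = N * x c := by
    intro c N
    rw [Finset.sum_eq_single c]
    · simp [nn]
    · intro b _ hb
      simp [nn, Pi.single_eq_of_ne hb]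
    · simp
  have e2 : ∑ i, ((nn c' (N' : ℤ) - nn c (N : ℤ)) i : ℝ) * x i = N' * x c' - N * x c := by
    rw [← e1, ← e1, ← Finset.sum_sub_distrib]
    refine Finset.sum_congr rfl fun i _ => ?_
    simp only [Pi.sub_apply]; push_cast; ring
  have e3 : ∑ i, ((nn c' (N' : ℤ) + nn c (N : ℤ)) i : ℝ) * x i = N' * x c' + N * x c := by
    rw [← e1, ← e1, ← Finset.sum_add_distrib]
    refine Finset.sum_congr rfl fun i _ => ?_
    simp only [Pi.add_apply]; push_cast; ring
  rw [e2, e3]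
  unfold co
  rw [show 2 * Real.pi * (N' * x c' - N * x c) + (θ' - θ) =
    (2 * Real.pi * N' * x c' + θ') - (2 * Real.pi * N * x c + θ) by ring,
    show 2 * Real.pi * (N' * x c' + N * x c) + (θ' + θ) =
    (2 * Real.pi * N' * x c' + θ') + (2 * Real.pi * N * x c + θ) by ring]
  generalize 2 * Real.pi * N' * x c' + θ' = B
  generalize 2 * Real.pi * N * x c + θ = A
  rw [Real.cos_sub, Real.cos_add]
  ring

lemma nn_apply (c m : Fin 3) (a : ℤ) : nn c a m = if m = c then a else 0 := by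
  unfold nn
  by_cases h : m = c
  · subst h; simp
  · simp [h]

/-- the diagonal -/
theorem diag {f : E3 → ℝ} (hf : SP f) {ε : ℝ} (hε : 0 < ε) :
    ∃ L : ℕ, 1 ≤ L ∧ ∀ (c : Fin 3) (N : ℕ), L ≤ N → ∀ θ : ℝ,
      |(∫ x in cube, (f x * co c N θ x) ^ 2) - 1 / 2 * ∫ x in cube, f x ^ 2| ≤ ε := by
  have hff : SP fun x => f x * f x := hf.mul hf
  obtain ⟨L, hL1, hL⟩ := decay hff hε
  refine ⟨L, hL1, fun c N hN θ => ?_⟩
  have h1 := int_cos hff (nn c (2 * N : ℤ)) (2 * θ)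
  have h2 := hL (nn c (2 * N : ℤ)) ⟨c, by rw [nn_apply, if_pos rfl, abs_of_nonneg (by positivity)]; omega⟩
  have hc : SP fun x : E3 => Real.cos (2 * Real.pi * (∑ i, ((nn c (2 * N : ℤ)) i : ℝ) * x i) + 2 * θ) := by
    have h3 : (fun x : E3 => Real.cos (2 * Real.pi * (∑ i, ((nn c (2 * N : ℤ)) i : ℝ) * x i) + 2 * θ)) =
        fun x => co c (2 * N) (2 * θ) x := by
      funext x
      unfold co
      congr 1
      rw [Finset.sum_eq_single c]
      · simp [nn]; ring
      · intro b _ hb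
        simp [nn, Pi.single_eq_of_ne hb]
      · simp
    rw [h3]
    exact co_SP _ _ _
  have e1 : (fun x : E3 => (f x * co c N θ x) ^ 2) = fun x => 1 / 2 * f x ^ 2 +
      1 / 2 * (f x * f x * Real.cos (2 * Real.pi * (∑ i, ((nn c (2 * N : ℤ)) i : ℝ) * x i) + 2 * θ)) := by
    funext x
    rw [mul_pow, co_sq]; ring
  rw [e1, integral_add, integral_const_mul, integral_const_mul, add_sub_cancel_left]
  · rw [abs_mul, abs_of_pos (by norm_num : (0 : ℝ) < 1 / 2)]
    linarith [abs_nonneg (∫ x in cube, f x * f x *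
      Real.cos (2 * Real.pi * (∑ i, ((nn c (2 * N : ℤ)) i : ℝ) * x i) + 2 * θ))]
  · exact (H459R3.NS.integrableOn_cube (hf.smooth.continuous.pow 2)).const_mul _
  · exact (H459R3.NS.integrableOn_cube (hff.mul hc).smooth.continuous).const_mul _

/-- the cross terms -/
theorem cross {f g : E3 → ℝ} (hf : SP f) (hg : SP g) {ε : ℝ} (hε : 0 < ε) :
    ∃ L : ℕ, 1 ≤ L ∧ ∀ (c c' : Fin 3) (N N' : ℕ), L ≤ N → 2 * N ≤ N' → ∀ θ θ' : ℝ,
      |∫ x in cube, (f x * co c N θ x) * (g x * co c' N' θ' x)| ≤ ε := by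
  have hff : SP fun x => f x * g x := hf.mul hg
  obtain ⟨L, hL1, hL⟩ := decay hff hε
  refine ⟨L, hL1, fun c c' N N' hN hN' θ θ' => ?_⟩
  have h1 := int_cos hff (nn c' (N' : ℤ) - nn c (N : ℤ)) (θ' - θ)
  have h2 := int_cos hff (nn c' (N' : ℤ) + nn c (N : ℤ)) (θ' + θ)
  have h3 := hL (nn c' (N' : ℤ) - nn c (N : ℤ)) ⟨c', by
    rw [Pi.sub_apply, nn_apply, nn_apply, if_pos rfl]
    split_ifs
    · rw [abs_of_nonneg (by omega)]; omega
    · rw [sub_zero, abs_of_nonneg (by omega)]; omega⟩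
  have h4 := hL (nn c' (N' : ℤ) + nn c (N : ℤ)) ⟨c', by
    rw [Pi.add_apply, nn_apply, nn_apply, if_pos rfl]
    split_ifs
    · rw [abs_of_nonneg (by omega)]; omega
    · rw [add_zero, abs_of_nonneg (by omega)]; omega⟩
  have hcs : ∀ (k : K) (θ : ℝ), Continuous fun x : E3 =>
      Real.cos (2 * Real.pi * (∑ i, (k i : ℝ) * x i) + θ) := fun k θ => by fun_prop
  have hint : ∀ (k : K) (θ : ℝ), IntegrableOn (fun x : E3 => f x * g x *
      Real.cos (2 * Real.pi * (∑ i, (k i : ℝ) * x i) + θ)) cube := fun k θ =>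
    H459R3.NS.integrableOn_cube (hff.smooth.continuous.mul (hcs k θ))
  have e1 : (fun x : E3 => (f x * co c N θ x) * (g x * co c' N' θ' x)) = fun x =>
      1 / 2 * (f x * g x * Real.cos (2 * Real.pi *
        (∑ i, ((nn c' (N' : ℤ) - nn c (N : ℤ)) i : ℝ) * x i) + (θ' - θ))) +
      1 / 2 * (f x * g x * Real.cos (2 * Real.pi *
        (∑ i, ((nn c' (N' : ℤ) + nn c (N : ℤ)) i : ℝ) * x i) + (θ' + θ))) := by
    funext x
    have := co_mul c c' N N' θ θ' x
    calc (f x * co c N θ x) * (g x * co c' N' θ' x) = f x * g x * (co c N θ x * co c' N' θ' x) := by ring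
      _ = _ := by rw [this]; ring
  rw [e1, integral_add ((hint _ _).const_mul _) ((hint _ _).const_mul _), integral_const_mul,
    integral_const_mul]
  have h5 := abs_add_le (1 / 2 * ∫ x in cube, f x * g x * Real.cos (2 * Real.pi *
        (∑ i, ((nn c' (N' : ℤ) - nn c (N : ℤ)) i : ℝ) * x i) + (θ' - θ)))
      (1 / 2 * ∫ x in cube, f x * g x * Real.cos (2 * Real.pi *
        (∑ i, ((nn c' (N' : ℤ) + nn c (N : ℤ)) i : ℝ) * x i) + (θ' + θ)))
  rw [abs_mul, abs_mul, abs_of_pos (by norm_num : (0 : ℝ) < 1 / 2)] at h5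
  linarith

end Pool.Agent.K1H29.L2
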