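import Pool.Agent.K1H29.L2.Orth

/-!
# `L²` and `L¹` norms of sums of waves supported in thin walls
-/

open MeasureTheory Set Filter Topology
open scoped ENNReal NNReal ContDiff

namespace Pool.Agent.K1H29.L2

open Pool.Agent.K1H11.NS
open H459R3.NS (ee fc fr cube S SP Per pd D Rap)

lemma fr_zero' (f : E3 → ℝ) : fr f 0 = ((∫ x in cube, f x : ℝ) : ℂ) := by
  unfold fr fc
  simp only [neg_zero, H459R3.NS.ee_zero, one_mul]
  exact integral_ofReal

lemma SP.int' {f : E3 → ℝ} (hf : SP f) : IntegrableOn f cube :=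
  H459R3.NS.integrableOn_cube hf.smooth.continuous

/-- the diagonal, for two functions -/
theorem diag2 {f g : E3 → ℝ} (hf : SP f) (hg : SP g) {ε : ℝ} (hε : 0 < ε) :
    ∃ L : ℕ, 1 ≤ L ∧ ∀ (c : Fin 3) (N : ℕ), L ≤ N → ∀ θ : ℝ,
      |(∫ x in cube, (f x * co c N θ x) * (g x * co c N θ x)) - 1 / 2 * ∫ x in cube, f x * g x| ≤ ε := by
  have hff : SP fun x => f x * g x := hf.mul hg
  obtain ⟨L, hL1, hL⟩ := decay hff hε
  refine ⟨L, hL1, fun c N hN θ => ?_⟩
  have h1 := int_cos hff (nn c (2 * N : ℤ)) (2 * θ)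
  have h2 := hL (nn c (2 * N : ℤ)) ⟨c, by rw [nn_apply, if_pos rfl, abs_of_nonneg (by positivity)]; omega⟩
  have hc : Continuous fun x : E3 => Real.cos (2 * Real.pi * (∑ i, ((nn c (2 * N : ℤ)) i : ℝ) * x i) + 2 * θ) := by
    fun_prop
  have e1 : (fun x : E3 => (f x * co c N θ x) * (g x * co c N θ x)) = fun x => 1 / 2 * (f x * g x) +
      1 / 2 * (f x * g x * Real.cos (2 * Real.pi * (∑ i, ((nn c (2 * N : ℤ)) i : ℝ) * x i) + 2 * θ)) := by
    funext x
    have := co_sq c N θ x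
    calc (f x * co c N θ x) * (g x * co c N θ x) = f x * g x * co c N θ x ^ 2 := by ring
      _ = _ := by rw [this]; ring
  rw [e1, integral_add, integral_const_mul, integral_const_mul, add_sub_cancel_left]
  · rw [abs_mul, abs_of_pos (by norm_num : (0 : ℝ) < 1 / 2)]
    linarith [abs_nonneg (∫ x in cube, f x * g x *
      Real.cos (2 * Real.pi * (∑ i, ((nn c (2 * N : ℤ)) i : ℝ) * x i) + 2 * θ))]
  · exact (SP.int' hff).const_mul _
  · exact (H459R3.NS.integrableOn_cube (hff.smooth.continuous.mul hc)).const_mul _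

/-- all entries of the Gram matrix -/
theorem gram {n : ℕ} {ρ : E3 → ℝ} (hρ : SP ρ) {h : Fin n → E3 → ℝ} (hh : ∀ i, SP (h i)) {ε : ℝ}
    (hε : 0 < ε) : ∃ L : ℕ, 1 ≤ L ∧ ∀ (c : Fin n → Fin 3) (N : Fin n → ℕ), (∀ i, L ≤ N i) →
      (∀ i j, i < j → 2 * N i ≤ N j) → ∀ (θ : Fin n → ℝ) (i j : Fin n),
      |(∫ x in cube, ρ x * ((h i x * co (c i) (N i) (θ i) x) * (h j x * co (c j) (N j) (θ j) x))) -
        (if i = j then 1 / 2 * ∫ x in cube, ρ x * h i x ^ 2 else 0)| ≤ ε := by
  have hρh : ∀ i, SP fun x => ρ x * h i x := fun i => hρ.mul (hh i)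
  choose L1 h11 h12 using fun i : Fin n => diag2 (hρh i) (hh i) hε
  choose L2 h21 h22 using fun p : Fin n × Fin n => cross (hρh p.1) (hh p.2) hε
  have hb1 : ∃ B, ∀ i, L1 i ≤ B := ⟨∑ i, L1 i, fun i => Finset.single_le_sum (f := L1)
    (fun _ _ => Nat.zero_le _) (Finset.mem_univ i)⟩
  have hb2 : ∃ B, ∀ p, L2 p ≤ B := ⟨∑ p, L2 p, fun p => Finset.single_le_sum (f := L2)
    (fun _ _ => Nat.zero_le _) (Finset.mem_univ p)⟩
  obtain ⟨B1, hB1⟩ := hb1
  obtain ⟨B2, hB2⟩ := hb2
  refine ⟨B1 + B2 + 1, by omega, fun c N hN hl θ i j => ?_⟩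
  rcases lt_trichotomy i j with hij | hij | hij
  · rw [if_neg (ne_of_lt hij), sub_zero]
    have := h22 (i, j) (c i) (c j) (N i) (N j) (by have := hB2 (i, j); have := hN i; omega) (hl i j hij)
      (θ i) (θ j)
    refine le_of_eq_of_le ?_ this
    congr 2
    funext x; ring
  · subst hij
    rw [if_pos rfl]
    have := h12 i (c i) (N i) (by have := hB1 i; have := hN i; omega) (θ i)
    refine le_of_eq_of_le ?_ this
    congr 2
    · congr 1; funext x; ring
    · congr 2; funext x; ring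
  · rw [if_neg (ne_of_gt hij), sub_zero]
    have := h22 (j, i) (c j) (c i) (N j) (N i) (by have := hB2 (j, i); have := hN j; omega) (hl j i hij)
      (θ j) (θ i)
    refine le_of_eq_of_le ?_ this
    congr 2
    funext x; ring

/-- **Almost orthogonality.** -/
theorem orth {n : ℕ} {ρ : E3 → ℝ} (hρ : SP ρ) {h : Fin n → E3 → ℝ} (hh : ∀ i, SP (h i)) {ε : ℝ}
    (hε : 0 < ε) : ∃ L : ℕ, 1 ≤ L ∧ ∀ (c : Fin n → Fin 3) (N : Fin n → ℕ), (∀ i, L ≤ N i) →
      (∀ i j, i < j → 2 * N i ≤ N j) → ∀ θ : Fin n → ℝ,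
      |(∫ x in cube, ρ x * (∑ i, h i x * co (c i) (N i) (θ i) x) ^ 2) -
        1 / 2 * ∑ i, ∫ x in cube, ρ x * h i x ^ 2| ≤ ε := by
  obtain ⟨L, hL1, hL⟩ := gram hρ hh (ε := ε / (n * n + 1)) (by positivity)
  refine ⟨L, hL1, fun c N hN hl θ => ?_⟩
  have hG := hL c N hN hl θ
  have hsp : ∀ i j, SP fun x => ρ x * ((h i x * co (c i) (N i) (θ i) x) * (h j x * co (c j) (N j) (θ j) x)) :=
    fun i j => hρ.mul (((hh i).mul (co_SP _ _ _)).mul ((hh j).mul (co_SP _ _ _)))
  have e1 : (∫ x in cube, ρ x * (∑ i, h i x * co (c i) (N i) (θ i) x) ^ 2) =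
      ∑ i, ∑ j, ∫ x in cube, ρ x * ((h i x * co (c i) (N i) (θ i) x) * (h j x * co (c j) (N j) (θ j) x)) := by
    simp_rw [← integral_finsetSum Finset.univ fun j _ => SP.int' (hsp _ j)]
    rw [← integral_finsetSum Finset.univ fun i _ => integrable_finset_sum _ fun j _ => SP.int' (hsp i j)]
    congr 1
    funext x
    rw [pow_two, Finset.sum_mul_sum, Finset.mul_sum]
    refine Finset.sum_congr rfl fun i _ => ?_
    rw [Finset.mul_sum]
  have e2 : 1 / 2 * ∑ i, ∫ x in cube, ρ x * h i x ^ 2 =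
      ∑ i, ∑ j, (if i = j then 1 / 2 * ∫ x in cube, ρ x * h i x ^ 2 else 0) := by
    rw [Finset.mul_sum]
    refine Finset.sum_congr rfl fun i _ => ?_
    rw [Finset.sum_ite_eq]
    simp
  rw [e1, e2, ← Finset.sum_sub_distrib]
  simp_rw [← Finset.sum_sub_distrib]
  calc _ ≤ ∑ i : Fin n, ∑ j : Fin n, ε / (n * n + 1) := by
        refine (Finset.abs_sum_le_sum_abs _ _).trans (Finset.sum_le_sum fun i _ => ?_)
        exact (Finset.abs_sum_le_sum_abs _ _).trans (Finset.sum_le_sum fun j _ => hG i j)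
    _ = (n * n : ℝ) * (ε / (n * n + 1)) := by
        simp only [Finset.sum_const, Finset.card_univ, Fintype.card_fin, nsmul_eq_mul]; ring
    _ ≤ ε := by
        rw [mul_div_assoc', div_le_iff₀ (by positivity)]
        nlinarith

/-- the mean of a function against a rapidly oscillating periodic function -/
theorem int_gM {g : ℝ → ℝ} (hs : ContDiff ℝ ∞ g) (hp : ∀ y, g (y + 1) = g y) {f : E3 → ℝ} (hf : SP f)
    {ε : ℝ} (hε : 0 < ε) : ∃ M0 : ℕ, 1 ≤ M0 ∧ ∀ M, M0 ≤ M → ∀ c : Fin 3,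
      |(∫ x in cube, f x * gM g c M x) - (∫ y in (0 : ℝ)..1, g y) * ∫ x in cube, f x| ≤ ε := by
  set a := ∫ y in (0 : ℝ)..1, g y with ha
  have hs0 : ContDiff ℝ ∞ fun y => g y - a := hs.sub contDiff_const
  have hp0 : ∀ y, (fun y => g y - a) (y + 1) = (fun y => g y - a) y := fun y => by simp only [hp]
  have h0 : ∫ y in (0 : ℝ)..1, (fun y => g y - a) y = 0 := by
    simp only
    rw [intervalIntegral.integral_sub (hs.continuous.intervalIntegrable _ _)
      (continuous_const.intervalIntegrable _ _), intervalIntegral.integral_const, ← ha]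
    simp
  obtain ⟨A, hA0, hA⟩ := gM_norm hs0 hp0
  obtain ⟨L, hL1, hL⟩ := decay hf (ε := ε / (A + 1)) (by positivity)
  refine ⟨L, hL1, fun M hM c => ?_⟩
  have hg0 : SP (gM (fun y => g y - a) c M) := gM_SP hs0 hp0 c M
  have hgS : SP (gM g c M) := gM_SP hs hp c M
  have e1 : (∫ x in cube, f x * gM g c M x) - a * ∫ x in cube, f x =
      ∫ x in cube, f x * gM (fun y => g y - a) c M x := by
    rw [← integral_const_mul, ← integral_sub (SP.int' (hf.mul hgS)) ((SP.int' hf).const_mul _)]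
    congr 1
    funext x
    unfold gM; ring
  rw [e1]
  have e2 : |∫ x in cube, f x * gM (fun y => g y - a) c M x| =
      ‖fr (fun x => f x * gM (fun y => g y - a) c M x) 0‖ := by
    rw [fr_zero', Complex.norm_real, Real.norm_eq_abs]
  rw [e2, fr_mul hf hg0]
  have hsum : Summable fun l : K => ‖fr (gM (fun y => g y - a) c M) (0 - l)‖ := by
    have h1 := (H459R3.NS.rap_fr hg0).summable.norm
    have h2 := (Equiv.neg K).summable_iff (f := fun k => ‖fr (gM (fun y => g y - a) c M) k‖)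
    simpa [Function.comp_def] using h2.2 h1
  have hle : ∀ l : K, ‖fr f l * fr (gM (fun y => g y - a) c M) (0 - l)‖ ≤
      ε / (A + 1) * ‖fr (gM (fun y => g y - a) c M) (0 - l)‖ := by
    intro l
    rw [norm_mul]
    by_cases hz : fr (gM (fun y => g y - a) c M) (0 - l) = 0
    · rw [hz]; simp
    · obtain ⟨m, hm1, hm2⟩ := gM_supp hs0 hp0 h0 c (le_trans hL1 hM) _ hz
      have h3 : ‖fr f l‖ ≤ ε / (A + 1) := hL l ⟨c, by
        have h4 : l c = -m := by
          have := congrFun hm2 c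
          rw [nn_apply, if_pos rfl] at this
          simp only [zero_sub, Pi.neg_apply] at this
          omega
        rw [h4, abs_neg]
        have h5 : (M : ℤ) ≤ |m| := by exact_mod_cast hm1
        omega⟩
      exact mul_le_mul_of_nonneg_right h3 (norm_nonneg _)
  have hs2 : Summable fun l : K => ‖fr f l * fr (gM (fun y => g y - a) c M) (0 - l)‖ :=
    Summable.of_nonneg_of_le (fun _ => norm_nonneg _) hle (hsum.mul_left _)
  refine (norm_tsum_le_tsum_norm hs2).trans ?_
  refine (hs2.tsum_le_tsum hle (hsum.mul_left _)).trans ?_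
  rw [tsum_mul_left]
  have e3 : ∑' l : K, ‖fr (gM (fun y => g y - a) c M) (0 - l)‖ = ∑' k, ‖fr (gM (fun y => g y - a) c M) k‖ := by
    rw [← (Equiv.neg K).tsum_eq (fun k => ‖fr (gM (fun y => g y - a) c M) k‖)]
    simp
  rw [e3]
  have h6 := hA c M
  have h7 : 0 ≤ ε / (A + 1) := by positivity
  calc ε / (A + 1) * ∑' k, ‖fr (gM (fun y => g y - a) c M) k‖ ≤ ε / (A + 1) * A :=
        mul_le_mul_of_nonneg_left h6 h7
    _ ≤ ε := by
        rw [div_mul_eq_mul_div, div_le_iff₀ (by positivity)]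
        nlinarith

/-- the mean of a cut-off function supported near the integers -/
theorem cut_mean {η : ℝ} (h0 : 0 < η) (h1 : η ≤ 1 / 4) {g : ℝ → ℝ} (hg : Cut η g) :
    ∫ y in (0 : ℝ)..1, g y ≤ Real.sqrt (2 * η) := by
  have hc : Continuous g := hg.smooth.continuous
  have hi : ∀ a b : ℝ, IntervalIntegrable g volume a b := fun a b => hc.intervalIntegrable a b
  have hi2 : ∀ a b : ℝ, IntervalIntegrable (fun y => g y ^ 2) volume a b := fun a b =>
    (hc.pow 2).intervalIntegrable a b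
  set s := Real.sqrt (2 * η) with hs
  have hs0 : 0 < s := Real.sqrt_pos.2 (by positivity)
  have hs2 : s ^ 2 = 2 * η := Real.sq_sqrt (by positivity)
  have hmid : ∀ y ∈ Set.uIcc η (1 - η), g y = 0 := by
    have hzero : ∀ y, η < y → y < 1 - η → g y = 0 := by
      intro y hy1 hy2
      apply hg.supp
      intro m
      rcases le_or_gt m 0 with hm | hm
      · have : (m : ℝ) ≤ 0 := by exact_mod_cast hm
        rw [lt_abs]; left; linarith
      · have : (1 : ℝ) ≤ m := by exact_mod_cast hm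
        rw [lt_abs]; right; linarith
    have hcl : IsClosed {y | g y = 0} := isClosed_eq hc continuous_const
    intro y hy
    rw [Set.uIcc_of_le (by linarith)] at hy
    have h2 : Set.Icc η (1 - η) ⊆ {y | g y = 0} := by
      rw [← closure_Ioo (by linarith : η ≠ 1 - η)]
      exact hcl.closure_subset_iff.2 fun y hy => hzero y hy.1 hy.2
    exact h2 hy
  have hm1 : ∫ y in η..(1 - η), g y = 0 := by
    rw [intervalIntegral.integral_congr (g := fun _ => (0 : ℝ)) fun y hy => hmid y hy]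
    simp
  have hm2 : 0 ≤ ∫ y in η..(1 - η), g y ^ 2 :=
    intervalIntegral.integral_nonneg (by linarith) fun _ _ => sq_nonneg _
  have hpt : ∀ y, g y ≤ s / 2 * g y ^ 2 + 1 / (2 * s) := by
    intro y
    have h3 : 0 ≤ (s * g y - 1) ^ 2 := sq_nonneg _
    have h4 : s / 2 * g y ^ 2 + 1 / (2 * s) - g y = (s * g y - 1) ^ 2 / (2 * s) := by
      field_simp; ring
    have h5 : 0 ≤ (s * g y - 1) ^ 2 / (2 * s) := by positivity
    linarith
  have hpart : ∀ a b : ℝ, a ≤ b → ∫ y in a..b, g y ≤ s / 2 * (∫ y in a..b, g y ^ 2) + (b - a) / (2 * s) := by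
    intro a b hab
    calc ∫ y in a..b, g y ≤ ∫ y in a..b, (s / 2 * g y ^ 2 + 1 / (2 * s)) :=
          intervalIntegral.integral_mono_on hab (hi a b)
            (((hi2 a b).const_mul _).add (continuous_const.intervalIntegrable a b)) fun y _ => hpt y
      _ = _ := by
          rw [intervalIntegral.integral_add ((hi2 a b).const_mul _) (continuous_const.intervalIntegrable a b),
            intervalIntegral.integral_const_mul, intervalIntegral.integral_const]
          simp; ring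
  have hsplit : ∫ y in (0 : ℝ)..1, g y = (∫ y in (0 : ℝ)..η, g y) + (∫ y in η..(1 - η), g y) +
      ∫ y in (1 - η)..1, g y := by
    rw [intervalIntegral.integral_add_adjacent_intervals (hi _ _) (hi _ _),
      intervalIntegral.integral_add_adjacent_intervals (hi _ _) (hi _ _)]
  have hsplit2 : ∫ y in (0 : ℝ)..1, g y ^ 2 = (∫ y in (0 : ℝ)..η, g y ^ 2) + (∫ y in η..(1 - η), g y ^ 2) +
      ∫ y in (1 - η)..1, g y ^ 2 := by
    rw [intervalIntegral.integral_add_adjacent_intervals (hi2 _ _) (hi2 _ _),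
      intervalIntegral.integral_add_adjacent_intervals (hi2 _ _) (hi2 _ _)]
  rw [hg.int] at hsplit2
  have a1 := hpart 0 η h0.le
  have a2 := hpart (1 - η) 1 (by linarith)
  rw [hsplit, hm1]
  have h6 : (η - 0) / (2 * s) + (1 - (1 - η)) / (2 * s) = s / 2 := by
    have : η = s ^ 2 / 2 := by linarith
    rw [this]; field_simp; ring
  nlinarith

end Pool.Agent.K1H29.L2
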